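import Mathlib
import Pool.Agent.V11309.Uni.LevelC

/-!
# MP_6b9f1a_nt, Q1 and Q2: the level set `L(q_KL)`

The Komornik–Loreti constant `q_KL` is the smallest base in which `1` has a unique expansion.  We
prove that `L(q_KL)` is uncountable (Q2: the answer is no) and that it has uncountably many
two-sided accumulation points (Q1: the answer is yes).
-/

namespace Pool.Agent.Results.MP_6b9f1a_nt.Uncountable

/-- `d` is a `q`-expansion of `x`: digits in `{0,1}` (`Fin 2`), `x = ∑_{i≥1} d_i q^{-i}` (the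
digit `d_i` of the text is `d (i-1)`). -/
def IsExpansion (q x : ℝ) (d : ℕ → Fin 2) : Prop :=
  HasSum (fun i : ℕ => (((d i : Fin 2) : ℕ) : ℝ) / q ^ (i + 1)) x

/-- The set `𝒰(x)` of bases `q ∈ (1,2]` in which `x` has exactly one `q`-expansion. -/
def univoqueBases (x : ℝ) : Set ℝ :=
  {q | 1 < q ∧ q ≤ 2 ∧ ∃! d : ℕ → Fin 2, IsExpansion q x d}

/-- The level set `L(q) = {x > 0 : min 𝒰(x) = q}` (the minimum is attained and equals `q`). -/
def levelSet (q : ℝ) : Set ℝ := {x | 0 < x ∧ IsLeast (univoqueBases x) q}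

/-- The level set defined with the infimum in place of the minimum. -/
def levelSetInf (q : ℝ) : Set ℝ := {x | 0 < x ∧ sInf (univoqueBases x) = q}

/-- `y` is a two-sided accumulation point of `A`. -/
def IsTwoSidedAcc (A : Set ℝ) (y : ℝ) : Prop :=
  ∀ ε : ℝ, 0 < ε → (Set.Ioo (y - ε) y ∩ A).Nonempty ∧ (Set.Ioo y (y + ε) ∩ A).Nonempty

/-- The set of univoque bases has a least element `q_KL`, and `L(q_KL)` is uncountable and has
uncountably many two-sided accumulation points (which moreover belong to `L(q_KL)`).  The same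
holds for the version of `L(q_KL)` with the infimum. -/
theorem result :
    ∃ qKL : ℝ, IsLeast (univoqueBases 1) qKL ∧
      ¬ (levelSet qKL).Countable ∧
      ¬ {y : ℝ | y ∈ levelSet qKL ∧ IsTwoSidedAcc (levelSet qKL) y}.Countable ∧
      ¬ (levelSetInf qKL).Countable ∧
      ¬ {y : ℝ | y ∈ levelSetInf qKL ∧ IsTwoSidedAcc (levelSetInf qKL) y}.Countable := by
  have hUx : ∀ x, univoqueBases x = V11309.Uni.Ux x := fun _ => rfl
  have hmin : ∀ q, levelSet q = V11309.Uni.Lmin q := fun _ => rfl
  have hinf : ∀ q, levelSetInf q = V11309.Uni.Linf q := fun _ => rfl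
  have hacc : ∀ (A : Set ℝ) (y : ℝ), IsTwoSidedAcc A y ↔ V11309.Uni.TwoSided A y := by
    intro A y
    unfold IsTwoSidedAcc V11309.Uni.TwoSided
    simp only [Set.inter_comm]
  obtain ⟨h1, h2⟩ := V11309.Uni.KL_least
  norm_num at h2
  have hU0 : ¬ (V11309.Uni.Lmin (sInf (V11309.Uni.Ux 1))).Countable :=
    V11309.Uni.Lmin_uncountable_of_isolated h1.1 (by norm_num; linarith)
      (p := sInf (V11309.Uni.Ux 1) - 1) (by linarith) (fun r hr _ => h1.2 hr)
  have hU : ¬ (levelSet (sInf (univoqueBases 1))).Countable := hU0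
  have hU' : ¬ (levelSetInf (sInf (univoqueBases 1))).Countable :=
    fun h => hU (h.mono (V11309.Uni.Lmin_sub_Linf _))
  refine ⟨sInf (univoqueBases 1), h1, hU, ?_, hU', ?_⟩
  · simp only [hacc]
    exact V11309.Uni.uncountable_twoSided hU
  · simp only [hacc]
    exact V11309.Uni.uncountable_twoSided hU'

end Pool.Agent.Results.MP_6b9f1a_nt.Uncountable
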